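import Pool.Agent.H773R2.MinSeq

set_option autoImplicit false

namespace Pool.Agent.Results.MP_b3b95b_an.BoundedDenseExtension

open Filter Topology Set Pool.Agent.H773R2

universe u v

/-- The closed linear span of a sequence. -/
def closedSpan (𝕜 : Type u) [RCLike 𝕜] {E : Type v} [NormedAddCommGroup E] [NormedSpace 𝕜 E]
    (x : ℕ → E) : Submodule 𝕜 E :=
  (Submodule.span 𝕜 (Set.range x)).topologicalClosure

theorem mem_closedSpan (𝕜 : Type u) [RCLike 𝕜] {E : Type v} [NormedAddCommGroup E]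
    [NormedSpace 𝕜 E] (x : ℕ → E) (n : ℕ) : x n ∈ closedSpan 𝕜 x :=
  Submodule.le_topologicalClosure _ (Submodule.subset_span ⟨n, rfl⟩)

/-- Let `E` be a separable Banach space and let `x` be a sequence in `E` which has biorthogonal
functionals `φ n` on its closed linear span with `‖φ n‖ ≤ C` for all `n` (in particular, let `x` be
a strictly bounded minimal sequence).  Then for every `ε > 0` the functionals `φ n` have extensions
`f n` to `E` with `‖f n‖ ≤ 2 * C + ε` such that the sum of the closed span of `x` and of the common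
kernel of the `f n` is dense in `E`. -/
theorem result (𝕜 : Type u) [RCLike 𝕜] (E : Type v) [NormedAddCommGroup E] [NormedSpace 𝕜 E]
    [CompleteSpace E] [TopologicalSpace.SeparableSpace E] (x : ℕ → E)
    (φ : ℕ → StrongDual 𝕜 (closedSpan 𝕜 x))
    (hφ : ∀ i j, φ i ⟨x j, mem_closedSpan 𝕜 x j⟩ = if i = j then 1 else 0)
    (C : ℝ) (hC : ∀ n, ‖φ n‖ ≤ C) (ε : ℝ) (hε : 0 < ε) :
    ∃ f : ℕ → StrongDual 𝕜 E, (∀ n (y : closedSpan 𝕜 x), f n (y : E) = φ n y) ∧
      (∀ n, ‖f n‖ ≤ 2 * C + ε) ∧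
      Dense ((closedSpan 𝕜 x ⊔ ⨅ n, LinearMap.ker (f n : E →ₗ[𝕜] 𝕜) : Submodule 𝕜 E) : Set E) := by
  -- the functionals `φ n` are weak*-null on the closed span
  have h0 : ∀ y : closedSpan 𝕜 x, Tendsto (fun n => φ n y) atTop (𝓝 0) := by
    intro y
    refine tendsto_zero_of_span_dense φ C hC
      (Set.range fun n => (⟨x n, mem_closedSpan 𝕜 x n⟩ : closedSpan 𝕜 x)) ?_ y ?_
    · rintro _ ⟨j, rfl⟩
      refine tendsto_const_nhds.congr' ?_
      filter_upwards [eventually_gt_atTop j] with n hn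
      rw [hφ, if_neg hn.ne']
    · rw [← SetLike.mem_coe, Submodule.topologicalClosure_coe, closure_subtype]
      have hy : (y : E) ∈ closure (Submodule.span 𝕜 (Set.range x) : Set E) := y.2
      refine closure_mono ?_ hy
      intro e he
      have hle : Submodule.span 𝕜 (Set.range x) ≤ (Submodule.span 𝕜 (Set.range fun n =>
          (⟨x n, mem_closedSpan 𝕜 x n⟩ : closedSpan 𝕜 x))).map (closedSpan 𝕜 x).subtype := by
        rw [Submodule.map_span]
        refine Submodule.span_mono ?_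
        rintro _ ⟨n, rfl⟩
        exact ⟨⟨x n, mem_closedSpan 𝕜 x n⟩, ⟨n, rfl⟩, rfl⟩
      obtain ⟨v, hv, hve⟩ := hle he
      exact ⟨v, hv, hve⟩
  obtain ⟨g, hg1, hg2, hg3⟩ := exists_null_extension (closedSpan 𝕜 x) φ C hC h0
  obtain ⟨w, h, hY, hoff, hone, hd⟩ :=
    exists_biorthogonal (closedSpan 𝕜 x) (TopologicalSpace.denseSeq E)
  obtain ⟨y, f, hy1, -, hy3, hy4, hy5⟩ := dense_step (closedSpan 𝕜 x) x (mem_closedSpan 𝕜 x) g
    (fun i j => by
      have := hg1 i ⟨x j, mem_closedSpan 𝕜 x j⟩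
      rw [hφ] at this
      exact this) hg3 w h hY hoff hone ε hε
  refine ⟨f, fun n e => ?_, fun n => ?_, ?_⟩
  · rw [hy3 n e e.2, hg1]
  · have h1 : f n = g n - (g n - f n) := by abel
    rw [h1]
    refine (norm_sub_le _ _).trans ?_
    linarith [hg2 n, hy4 n]
  · rw [Submodule.dense_iff_topologicalClosure_eq_top, eq_top_iff]
    have h1 : closedSpan 𝕜 x ⊔ Submodule.span 𝕜 (Set.range w) ≤
        closedSpan 𝕜 x ⊔ ⨅ n, LinearMap.ker (f n : E →ₗ[𝕜] 𝕜) := by
      refine sup_le le_sup_left (Submodule.span_le.2 ?_)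
      rintro _ ⟨m, rfl⟩
      have h2 : w m = y m + (w m - y m) := by abel
      rw [h2]
      refine Submodule.add_mem _ (Submodule.mem_sup_left (hy1 m)) (Submodule.mem_sup_right ?_)
      rw [Submodule.mem_iInf]
      intro n
      exact hy5 n m
    intro e _
    have h3 : e ∈ closure (Set.range (TopologicalSpace.denseSeq E)) :=
      (TopologicalSpace.denseRange_denseSeq E) e
    have h4 : Set.range (TopologicalSpace.denseSeq E) ⊆
        ((closedSpan 𝕜 x ⊔ ⨅ n, LinearMap.ker (f n : E →ₗ[𝕜] 𝕜)).topologicalClosure : Set E) := by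
      rintro _ ⟨m, rfl⟩
      exact Submodule.topologicalClosure_mono h1 (hd m)
    exact closure_minimal h4 (Submodule.isClosed_topologicalClosure _) h3

end Pool.Agent.Results.MP_b3b95b_an.BoundedDenseExtension
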